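import Pool.Agent.H99.Bouquet2

open MeasureTheory Filter Topology
open scoped ENNReal NNReal

noncomputable section

namespace Pool.Agent.Results.MP_71b3bb_an.Counter

open Pool.Agent.H99.UAlg

theorem exists_lim {Y : Type} [SeminormedAddCommGroup Y] [NormedSpace ℂ Y]
    (φ : ℕ → StrongDual ℂ Y) (C : ℝ) (hφ : ∀ n, ‖φ n‖ ≤ C) :
    ∃ Φ : StrongDual ℂ Y, ∀ y c, (∀ᶠ n in atTop, φ n y = c) → Φ y = c := by
  obtain ⟨Φ, -, hΦ⟩ := (WeakDual.isCompact_closedBall (𝕜 := ℂ) (0 : StrongDual ℂ Y) C).exists_mapClusterPt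
    (f := atTop) (u := fun n => StrongDual.toWeakDual (φ n))
    (le_principal_iff.2 (mem_map.2 (Eventually.of_forall fun n => by simpa using hφ n)))
  refine ⟨WeakDual.toStrongDual Φ, fun y c h => ?_⟩
  have h1 := hΦ.continuousAt_comp (WeakDual.eval_continuous y).continuousAt
  exact isClosed_singleton.mem_of_mapClusterPt h1 h

theorem not_refl {X : Type} [NormedAddCommGroup X] [NormedSpace ℂ X] (M : Submodule ℂ X)
    (x : ℕ → X) (T : ℕ → StrongDual ℂ X) (C D : ℝ) (hx : ∀ N, ‖x N‖ ≤ C) (hT : ∀ n, ‖T n‖ ≤ D)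
    (hM : ∀ n, M ≤ (T n).ker) (h : ∀ n N, T n (x N) = if n < N then 1 else 0) :
    ¬ Function.Surjective (NormedSpace.inclusionInDoubleDual ℂ (X ⧸ M)) := by
  intro hs
  obtain ⟨ψ, hψ⟩ := exists_lim T D hT
  obtain ⟨Φ, hΦ⟩ := exists_lim
    (fun N => NormedSpace.inclusionInDoubleDual ℂ (X ⧸ M) (Submodule.Quotient.mk (x N))) C
    (fun N => (NormedSpace.double_dual_bound ℂ _ _).trans
      ((Submodule.Quotient.norm_mk_le M _).trans (hx N)))
  obtain ⟨y, rfl⟩ := hs Φ
  obtain ⟨e, rfl⟩ := Submodule.Quotient.mk_surjective M y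
  have hψM : M ≤ ψ.ker := fun m hm => hψ m 0 (Eventually.of_forall fun n => hM n hm)
  have h1 : ∀ n, T n e = 1 := fun n => hΦ (M.liftQL (T n) (hM n)) 1 (by
    filter_upwards [eventually_gt_atTop n] with N hN
    exact (h n N).trans (if_pos hN))
  have h2 : ψ e = 1 := hψ e 1 (Eventually.of_forall h1)
  have h3 : ψ e = 0 := hΦ (M.liftQL ψ hψM) 0 (Eventually.of_forall fun N => hψ (x N) 0 (by
    filter_upwards [eventually_ge_atTop N] with n hn
    exact (h n N).trans (if_neg (by omega))))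
  rw [h2] at h3
  exact one_ne_zero h3

def m0 : Measure Bq := Measure.sum fun n => (2⁻¹ : ℝ≥0∞) ^ n • om n

instance : IsFiniteMeasure m0 := ⟨by
  rw [m0, Measure.sum_apply _ MeasurableSet.univ]
  calc _ ≤ ∑' n : ℕ, (2⁻¹ : ℝ≥0∞) ^ n * 4 := ENNReal.tsum_le_tsum fun n => by
        rw [Measure.smul_apply, smul_eq_mul]
        gcongr
        exact om_univ n
    _ < ⊤ := by
      rw [ENNReal.tsum_mul_right, ENNReal.tsum_geometric_two]
      exact ENNReal.mul_lt_top (by simp) (by simp)⟩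

def mu : FiniteMeasure Bq := ⟨m0, inferInstance⟩

theorem mu_coe : (mu : Measure Bq) = Measure.sum fun n => (2⁻¹ : ℝ≥0∞) ^ n • om n := rfl

theorem extremal : Extremal BA mu := by
  refine extremal_of_dense (dense_of_Lcl (Lcl_top ?_ fun i => ind_mem_Lcl fun ε hε u hu => ?_))
  · rw [mu_coe, Measure.ae_sum_iff]
    exact fun n => Measure.ae_smul_measure ((ae_om_on n).mono fun _ hx => onY_of hx) _
  · rw [mu_coe, lintegral_sum_measure, tsum_eq_single i (fun n hn => by
      rw [lintegral_smul_measure, lint_om_ne hu hn, smul_zero]), lintegral_smul_measure,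
      smul_eq_mul]
    calc _ ≤ 1 * ENNReal.ofReal ε := by
          gcongr
          · exact pow_le_one₀ zero_le (by simp)
          · exact lint_om_le i hu
      _ ≤ _ := by rw [one_mul]; exact ENNReal.ofReal_le_ofReal (by linarith)

theorem lam_ac_mu (n : ℕ) : lam n ≪ (mu : Measure Bq) :=
  (lam_ac n).trans ((Measure.absolutelyContinuous_smul (c := (2⁻¹ : ℝ≥0∞) ^ n) (by simp)).trans
    (Measure.le_sum (fun n => (2⁻¹ : ℝ≥0∞) ^ n • om n) n).absolutelyContinuous)

theorem norm_s (N : ℕ) : ‖∑ m ∈ Finset.range N, ind (2 * m)‖ ≤ 1 := by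
  rw [ContinuousMap.norm_le _ zero_le_one]
  intro x
  rw [ContinuousMap.sum_apply]
  by_cases h : ∃ m ∈ Finset.range N, x.1 (2 * m) ≠ 0
  · obtain ⟨m, hm, hx⟩ := h
    rw [Finset.sum_eq_single_of_mem m hm fun k _ hk => by
      have := (mul_eq_zero.1 (x.2.2 (2 * m) (2 * k) (by omega))).resolve_left hx
      simp [ind, this]]
    simp only [ind, ContinuousMap.mul_apply, ContinuousMap.star_apply, X_apply, norm_mul, norm_star]
    exact mul_le_one₀ (x.2.1 _) (norm_nonneg _) (x.2.1 _)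
  · push Not at h
    rw [Finset.sum_eq_zero fun m hm => by simp [ind, h m hm]]
    simp

theorem result : ∃ (S : Type) (_ : TopologicalSpace S) (_ : CompactSpace S) (_ : T2Space S)
    (_ : TopologicalSpace.MetrizableSpace S) (_ : MeasurableSpace S) (_ : BorelSpace S)
    (A : Subalgebra ℂ C(S, ℂ)) (μ : FiniteMeasure S),
    Adm A ∧ Extremal A μ ∧ LinfQuotNotReflexive A μ := by
  refine ⟨Bq, inferInstance, inferInstance, inferInstance, inferInstance, inferInstance,
    inferInstance, BA, mu, adm_BA, extremal, ?_⟩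
  have hc : (wclos mu (AAp BA ∞ mu) : Set _) = wcl mu (AAs BA ∞ mu) := by rw [← AAp_coe]; rfl
  refine ⟨hc ▸ wclos_closed _ _, wclos mu (AAp BA ∞ mu), hc, ?_⟩
  choose h hn hh using fun n => exists_density mu (lam n) (lam_ac_mu n)
  let L := ((ContinuousLinearMap.mul ℂ ℂ).lpPairing (mu : Measure Bq) ∞ 1).flip
  have hL : ∀ g F, L g F = pair mu F g := fun _ _ => rfl
  let J := ContinuousMap.toLp (E := ℂ) ∞ (mu : Measure Bq) ℂ
  refine not_refl _ (fun N => J (∑ m ∈ Finset.range N, ind (2 * m)))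
    (fun n => L (h (2 * n) - h (2 * n + 1))) (‖J‖ * 1) (‖L‖ * 2) (fun N => ?_) (fun n => ?_)
    (fun n F hF => ?_) (fun n N => ?_)
  · exact (J.le_opNorm _).trans (mul_le_mul_of_nonneg_left (norm_s N) (norm_nonneg _))
  · refine (L.le_opNorm _).trans (mul_le_mul_of_nonneg_left ((norm_sub_le _ _).trans ?_)
      (norm_nonneg _))
    rw [hn, hn]; simp; norm_num
  · refine (mem_wclos_iff _ _ _).1 hF _ ?_
    rintro _ ⟨g, hg, rfl⟩
    rw [map_sub]
    exact sub_eq_zero.2 ((hh _ g).trans ((int_lam_AA _ _ g hg).trans (hh _ g).symm))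
  · rw [hL, map_sub, hh, hh]
    simp only [ContinuousMap.sum_apply]
    rw [integral_finsetSum _ fun m _ => integrable_cm _ _,
      integral_finsetSum _ fun m _ => integrable_cm _ _,
      Finset.sum_eq_zero (s := Finset.range N) (f := fun m => ∫ x, ind (2 * m) x ∂lam (2 * n + 1))
        fun m _ => int_ind_ne (by omega), sub_zero]
    split_ifs with hlt
    · rw [Finset.sum_eq_single_of_mem n (Finset.mem_range.2 hlt) fun k _ hk =>
        int_ind_ne (by omega), int_ind_self]
    · exact Finset.sum_eq_zero fun k hk => int_ind_ne (by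
        have := Finset.mem_range.1 hk
        omega)

end Pool.Agent.Results.MP_71b3bb_an.Counter
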